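import Pool.Agent.Shared.BM.PL

/-!
Slicing of Euclidean space along the first coordinate, the Prekopa-Leindler inequality in every
dimension and the midpoint Brunn-Minkowski inequality.
-/

set_option autoImplicit false

open MeasureTheory Set ENNReal
open scoped RealInnerProductSpace

namespace Pool.Agent.Shared.BM

/-- Euclidean space of dimension `n` -/
abbrev E (n : ℕ) : Type := EuclideanSpace ℝ (Fin n)

variable {n : ℕ}

/-- prepend a coordinate -/
def cons (t : ℝ) (y : E n) : E (n + 1) := WithLp.toLp 2 (Fin.cons t y.ofLp)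

/-- drop the first coordinate -/
def tail (x : E (n + 1)) : E n := WithLp.toLp 2 (fun i => x i.succ)

@[simp] lemma cons_zero (t : ℝ) (y : E n) : cons t y 0 = t := rfl
@[simp] lemma cons_succ (t : ℝ) (y : E n) (i : Fin n) : cons t y i.succ = y i := rfl
@[simp] lemma tail_apply (x : E (n + 1)) (i : Fin n) : tail x i = x i.succ := rfl
@[simp] lemma tail_cons (t : ℝ) (y : E n) : tail (cons t y) = y := rfl
@[simp] lemma cons_tail (x : E (n + 1)) : cons (x 0) (tail x) = x := by
  ext i; refine Fin.cases ?_ (fun i => ?_) i <;> rfl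

lemma cons_add (t s : ℝ) (y z : E n) : cons t y + cons s z = cons (t + s) (y + z) := by
  ext i; refine Fin.cases ?_ (fun i => ?_) i <;> rfl

lemma cons_sub (t s : ℝ) (y z : E n) : cons t y - cons s z = cons (t - s) (y - z) := by
  ext i; refine Fin.cases ?_ (fun i => ?_) i <;> rfl

lemma smul_cons (c t : ℝ) (y : E n) : c • cons t y = cons (c * t) (c • y) := by
  ext i; refine Fin.cases ?_ (fun i => ?_) i <;> rfl

lemma neg_cons (t : ℝ) (y : E n) : -cons t y = cons (-t) (-y) := by
  ext i; refine Fin.cases ?_ (fun i => ?_) i <;> rfl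

lemma cons_zero_zero : cons 0 (0 : E n) = 0 := by
  ext i; refine Fin.cases ?_ (fun i => ?_) i <;> rfl

lemma tail_add (x y : E (n + 1)) : tail (x + y) = tail x + tail y := rfl
lemma tail_sub (x y : E (n + 1)) : tail (x - y) = tail x - tail y := rfl
lemma tail_neg (x : E (n + 1)) : tail (-x) = -tail x := rfl
lemma tail_smul (c : ℝ) (x : E (n + 1)) : tail (c • x) = c • tail x := rfl

lemma inner_cons (t s : ℝ) (y z : E n) : ⟪cons t y, cons s z⟫ = t * s + ⟪y, z⟫ := by
  simp [PiLp.inner_apply, Fin.sum_univ_succ, mul_comm]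

lemma norm_sq_cons (t : ℝ) (y : E n) : ‖cons t y‖ ^ 2 = t ^ 2 + ‖y‖ ^ 2 := by
  rw [← real_inner_self_eq_norm_sq, inner_cons, real_inner_self_eq_norm_sq, sq t]

lemma continuous_cons : Continuous fun p : ℝ × E n => cons p.1 p.2 := by
  unfold cons
  refine (PiLp.continuous_toLp 2 _).comp (continuous_pi fun i => ?_)
  refine Fin.cases ?_ (fun i => ?_) i
  · exact continuous_fst
  · simp only [Fin.cons_succ]; fun_prop

lemma continuous_tail : Continuous (tail : E (n + 1) → E n) := by
  unfold tail; fun_prop

@[fun_prop]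
lemma Continuous.cons' {X : Type*} [TopologicalSpace X] {f : X → ℝ} {g : X → E n}
    (hf : Continuous f) (hg : Continuous g) : Continuous fun x => cons (f x) (g x) :=
  continuous_cons.comp (hf.prodMk hg)

@[fun_prop]
lemma Continuous.tail' {X : Type*} [TopologicalSpace X] {g : X → E (n + 1)}
    (hg : Continuous g) : Continuous fun x => tail (g x) :=
  continuous_tail.comp hg

lemma measurePreserving_cons :
    MeasurePreserving (fun p : ℝ × E n => cons p.1 p.2) (volume.prod volume) volume := by
  have h1 := (volume_preserving_piFinSuccAbove (fun _ : Fin (n + 1) => ℝ) 0).symm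
  have h2 := (MeasurePreserving.id (volume : Measure ℝ)).prod (PiLp.volume_preserving_ofLp (Fin n))
  have h3 := ((PiLp.volume_preserving_toLp (Fin (n + 1))).comp h1).comp h2
  have e : (fun p : ℝ × E n => cons p.1 p.2) = (WithLp.toLp 2 ∘
      (MeasurableEquiv.piFinSuccAbove (fun _ : Fin (n + 1) => ℝ) 0).symm) ∘
        Prod.map id WithLp.ofLp := by
    ext p i
    refine Fin.cases ?_ (fun i => ?_) i <;>
      simp [MeasurableEquiv.piFinSuccAbove, Fin.insertNthEquiv]
  rw [e]
  exact h3

lemma lintegral_slice {f : E (n + 1) → ℝ≥0∞} (hf : Measurable f) :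
    ∫⁻ x, f x = ∫⁻ t : ℝ, ∫⁻ y : E n, f (cons t y) := by
  rw [← measurePreserving_cons.lintegral_comp hf]
  exact lintegral_prod _ (hf.comp continuous_cons.measurable).aemeasurable

lemma lintegral_slice' {f : E (n + 1) → ℝ≥0∞} (hf : Measurable f) :
    ∫⁻ x, f x = ∫⁻ y : E n, ∫⁻ t : ℝ, f (cons t y) := by
  rw [← measurePreserving_cons.lintegral_comp hf]
  exact lintegral_prod_symm _ (hf.comp continuous_cons.measurable).aemeasurable

/-- horizontal slice at height `t` -/
def hs (A : Set (E (n + 1))) (t : ℝ) : Set (E n) := {y | cons t y ∈ A}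

/-- vertical chord over `y` -/
def vs (A : Set (E (n + 1))) (y : E n) : Set ℝ := {t | cons t y ∈ A}

lemma volume_eq_hs {A : Set (E (n + 1))} (hA : MeasurableSet A) :
    volume A = ∫⁻ t : ℝ, volume (hs A t) := by
  rw [← measurePreserving_cons.measure_preimage hA.nullMeasurableSet,
    Measure.prod_apply (continuous_cons.measurable hA)]
  rfl

lemma volume_eq_vs {A : Set (E (n + 1))} (hA : MeasurableSet A) :
    volume A = ∫⁻ y : E n, volume (vs A y) := by
  rw [← measurePreserving_cons.measure_preimage hA.nullMeasurableSet,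
    Measure.prod_apply_symm (continuous_cons.measurable hA)]
  rfl

lemma measurable_hs {A : Set (E (n + 1))} (hA : MeasurableSet A) :
    Measurable fun t => volume (hs A t) :=
  measurable_measure_prodMk_left (continuous_cons.measurable hA)

lemma measurable_vs {A : Set (E (n + 1))} (hA : MeasurableSet A) :
    Measurable fun y => volume (vs A y) :=
  measurable_measure_prodMk_right (continuous_cons.measurable hA)

lemma measurableSet_hs {A : Set (E (n + 1))} (hA : MeasurableSet A) (t : ℝ) :
    MeasurableSet (hs A t) :=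
  (Continuous.cons' continuous_const continuous_id).measurable hA

lemma measurableSet_vs {A : Set (E (n + 1))} (hA : MeasurableSet A) (y : E n) :
    MeasurableSet (vs A y) :=
  (Continuous.cons' continuous_id continuous_const).measurable hA

/-- Prekopa-Leindler inequality, midpoint form -/
theorem pl (n : ℕ) : ∀ {f g h : E n → ℝ≥0∞}, Measurable f → Measurable g → Measurable h →
    (∀ x y, f x * g y ≤ h ((1 / 2 : ℝ) • (x + y)) ^ 2) →
    (∫⁻ x, f x) * ∫⁻ y, g y ≤ (∫⁻ w, h w) ^ 2 := by
  induction n with
  | zero =>
    intro f g h hf hg hh H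
    rw [volume_euclideanSpace_eq_dirac, lintegral_dirac, lintegral_dirac, lintegral_dirac]
    simpa using H 0 0
  | succ n ih =>
    intro f g h hf hg hh H
    rw [lintegral_slice hf, lintegral_slice hg, lintegral_slice hh]
    refine pl1 (hf.comp continuous_cons.measurable).lintegral_prod_right'
      (hg.comp continuous_cons.measurable).lintegral_prod_right'
      (hh.comp continuous_cons.measurable).lintegral_prod_right' fun t s => ?_
    refine ih (hf.comp (Continuous.cons' continuous_const continuous_id).measurable)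
      (hg.comp (Continuous.cons' continuous_const continuous_id).measurable)
      (hh.comp (Continuous.cons' continuous_const continuous_id).measurable) fun x y => ?_
    have := H (cons t x) (cons s y)
    rw [cons_add, smul_cons] at this
    convert this using 4
    ring

/-- multiplicative midpoint Brunn-Minkowski inequality -/
theorem bm_mul {A B C : Set (E n)} (hA : MeasurableSet A) (hB : MeasurableSet B)
    (hC : MeasurableSet C) (H : ∀ x ∈ A, ∀ y ∈ B, (1 / 2 : ℝ) • (x + y) ∈ C) :
    volume A * volume B ≤ volume C ^ 2 := by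
  rw [← lintegral_indicator_one hA, ← lintegral_indicator_one hB, ← lintegral_indicator_one hC]
  refine pl n (measurable_one.indicator hA) (measurable_one.indicator hB)
    (measurable_one.indicator hC) fun x y => ?_
  by_cases hx : x ∈ A
  · by_cases hy : y ∈ B
    · rw [indicator_of_mem (H x hx y hy)]; simp [hx, hy]
    · simp [hy]
  · simp [hx]

/-- a set is not larger than any measurable set containing half of its difference set -/
theorem vol_le_of_half_diff {A C : Set (E n)} (hA : MeasurableSet A) (hC : MeasurableSet C)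
    (H : ∀ x ∈ A, ∀ y ∈ A, (1 / 2 : ℝ) • (x - y) ∈ C) : volume A ≤ volume C := by
  have := bm_mul hA hA.neg hC fun x hx y hy => by
    have := H x hx (-y) hy
    rwa [sub_neg_eq_add] at this
  rw [Measure.measure_neg] at this
  simpa using min_le_of_mul_le_sq this

lemma lintegral_even {φ : ℝ → ℝ≥0∞} (h : ∀ t, φ (-t) = φ t) :
    ∫⁻ t, φ t = 2 * ∫⁻ t in Ioi (0 : ℝ), φ t := by
  rw [← lintegral_add_compl φ (measurableSet_Ioi (a := (0 : ℝ))), two_mul, compl_Ioi]
  congr 1
  rw [← Measure.restrict_congr_set Iio_ae_eq_Iic]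
  have := (Measure.measurePreserving_neg (volume : Measure ℝ)).setLIntegral_comp_preimage_emb
    (MeasurableEquiv.neg ℝ).measurableEmbedding φ (Iio 0)
  rw [← this]
  simp [h]

lemma hs_neg {A : Set (E (n + 1))} (h : ∀ x ∈ A, -x ∈ A) (t : ℝ) : hs A (-t) = -hs A t := by
  ext y
  simp only [hs, mem_ofPred_eq, mem_neg]
  constructor
  · intro hy
    have := h _ hy
    rwa [neg_cons, neg_neg] at this
  · intro hy
    have := h _ hy
    rwa [neg_cons, neg_neg] at this

lemma volume_eq_two_mul {A : Set (E (n + 1))} (hA : MeasurableSet A) (h : ∀ x ∈ A, -x ∈ A) :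
    volume A = 2 * ∫⁻ t in Ioi (0 : ℝ), volume (hs A t) := by
  rw [volume_eq_hs hA, lintegral_even]
  intro t
  rw [hs_neg h, Measure.measure_neg]

end Pool.Agent.Shared.BM
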