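import Pool.Agent.Shared.BM.Santalo

/-!
A Macbeath type inequality: the volume of a compact convex set `K` is at most the volume of the
unit ball times the largest determinant of `n` vectors of `(K - K) / 2`.
The proof takes an extremal set (Blaschke selection) and applies Steiner symmetrisation to it.
-/

set_option autoImplicit false

open MeasureTheory Set ENNReal Metric Filter Topology TopologicalSpace
open scoped RealInnerProductSpace Pointwise

namespace Pool.Agent.Shared.BM

variable {n : ℕ}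

/-- determinant of `n` vectors -/
noncomputable def detv (v : Fin n → E n) : ℝ := (Matrix.of fun i j => v i j).det

lemma detv_eq (v : Fin n → E n) :
    detv v = (EuclideanSpace.basisFun (Fin n) ℝ).toBasis.det v := by
  rw [Module.Basis.det_apply, ← Matrix.det_transpose, detv]
  congr 1

lemma continuous_detv : Continuous (detv : (Fin n → E n) → ℝ) := by
  unfold detv
  refine Continuous.matrix_det (continuous_matrix fun i j => ?_)
  simp only [Matrix.of_apply]
  fun_prop

lemma abs_detv_iso (T : E n ≃ₗᵢ[ℝ] E n) (v : Fin n → E n) :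
    |detv fun i => T (v i)| = |detv v| := by
  set e := EuclideanSpace.basisFun (Fin n) ℝ
  have h1 : ∀ w : Fin n → E n, e.toBasis.det (fun i => T (w i)) =
      LinearMap.det (T.toLinearEquiv : E n →ₗ[ℝ] E n) * e.toBasis.det w := fun w =>
    e.toBasis.det_comp (T.toLinearEquiv : E n →ₗ[ℝ] E n) w
  have h2 := e.det_to_matrix_orthonormalBasis_real (e.map T)
  have h3 : e.toBasis.det (e.map T) = LinearMap.det (T.toLinearEquiv : E n →ₗ[ℝ] E n) := by
    have := h1 e
    have h4 : e.toBasis.det e = 1 := e.toBasis.det_self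
    rw [h4, mul_one] at this
    exact this
  rw [detv_eq, detv_eq, h1, abs_mul, ← h3]
  rcases h2 with h | h <;> rw [h] <;> simp [e]

lemma detv_cons_col (c : Fin (n + 1) → ℝ) (w : Fin (n + 1) → E n) :
    detv (fun i => cons (c i) (w i)) =
      ∑ i : Fin (n + 1), (-1) ^ (i : ℕ) * c i * detv fun k => w (i.succAbove k) := by
  rw [detv, Matrix.det_succ_column_zero]
  rfl

/-- all determinants of vectors of `(L - L) / 2` are bounded by `D` -/
def DB (L : Set (E n)) (D : ℝ) : Prop :=
  ∀ a b : Fin n → E n, (∀ i, a i ∈ L) → (∀ i, b i ∈ L) →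
    |detv fun i => (1 / 2 : ℝ) • (a i - b i)| ≤ D

lemma DB.steiner {K : Set (E (n + 1))} {D : ℝ} (h : DB K D) : DB (steiner K) D := by
  intro z z' hz hz'
  choose a b ha hb hab using hz
  choose a' b' ha' hb' hab' using hz'
  have h1 := h _ _ ha ha'
  have h2 := h _ _ hb hb'
  simp only [cons_sub, smul_cons, detv_cons_col] at h1 h2
  have e : (fun i => (1 / 2 : ℝ) • (z i - z' i)) = fun i =>
      cons (1 / 2 * ((a i - b i) / 2 - (a' i - b' i) / 2))
        ((1 / 2 : ℝ) • (tail (z i) - tail (z' i))) := by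
    funext i
    rw [← hab, ← hab', ← smul_cons, ← cons_sub, cons_tail, cons_tail]
  rw [e, detv_cons_col]
  have e2 : ∑ i : Fin (n + 1), (-1) ^ (i : ℕ) * (1 / 2 * ((a i - b i) / 2 - (a' i - b' i) / 2)) *
        detv (fun k => (1 / 2 : ℝ) • (tail (z (i.succAbove k)) - tail (z' (i.succAbove k)))) =
      (∑ i : Fin (n + 1), (-1) ^ (i : ℕ) * (1 / 2 * (a i - a' i)) *
        detv (fun k => (1 / 2 : ℝ) • (tail (z (i.succAbove k)) - tail (z' (i.succAbove k)))) -
      ∑ i : Fin (n + 1), (-1) ^ (i : ℕ) * (1 / 2 * (b i - b' i)) *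
        detv (fun k => (1 / 2 : ℝ) • (tail (z (i.succAbove k)) - tail (z' (i.succAbove k))))) / 2 := by
    rw [← Finset.sum_sub_distrib, Finset.sum_div]
    refine Finset.sum_congr rfl fun i _ => by ring
  rw [e2]
  rw [abs_le] at h1 h2 ⊢
  constructor <;> linarith [h1.1, h1.2, h2.1, h2.2]

lemma DB.iso {K : Set (E n)} {D : ℝ} (h : DB K D) (T : E n ≃ₗᵢ[ℝ] E n) : DB (T '' K) D := by
  intro z z' hz hz'
  choose a ha hab using hz
  choose b hb hab' using hz'
  have := h a b ha hb
  rw [← abs_detv_iso T] at this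
  simpa only [map_smul, map_sub, hab, hab'] using this

lemma isClosed_le_measure (μ : Measure (E n)) [IsFiniteMeasureOnCompacts μ]
    [Measure.OuterRegular μ] :
    UpperSemicontinuous fun L : Compacts (E n) => μ L := by
  rw [upperSemicontinuous_iff_isOpen_preimage]
  intro c
  rw [isOpen_iff_mem_nhds]
  intro L hL
  obtain ⟨U, hLU, hU, hc⟩ := Set.exists_isOpen_lt_of_lt (μ := μ) (L : Set (E n)) c hL
  filter_upwards [(Compacts.isOpen_subsets_of_isOpen hU).mem_nhds hLU] with K hK
  exact (measure_mono hK).trans_lt hc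

lemma isClosed_convex : IsClosed {L : Compacts (E n) | Convex ℝ (L : Set (E n))} := by
  rw [← isOpen_compl_iff, isOpen_iff_mem_nhds]
  intro L hL
  simp only [mem_compl_iff, mem_ofPred_eq, convex_iff_add_mem] at hL
  push Not at hL
  obtain ⟨x, hx, y, hy, a, b, ha, hb, hab, hz⟩ := hL
  obtain ⟨U, W, hU, hW, hLU, hzW, hUW⟩ := L.isCompact.separation_of_notMem hz
  have hc : Continuous fun p : E n × E n => a • p.1 + b • p.2 := by fun_prop
  obtain ⟨U1, U2, hU1, hU2, hx1, hy2, hsub⟩ := isOpen_prod_iff.1 (hW.preimage hc) x y hzW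
  filter_upwards [(Compacts.isOpen_subsets_of_isOpen hU).mem_nhds hLU,
    (Compacts.isOpen_inter_nonempty_of_isOpen hU1).mem_nhds ⟨x, hx, hx1⟩,
    (Compacts.isOpen_inter_nonempty_of_isOpen hU2).mem_nhds ⟨y, hy, hy2⟩] with K hKU h1 h2
  obtain ⟨x', hx', hx1'⟩ := h1
  obtain ⟨y', hy', hy2'⟩ := h2
  intro hK
  exact Set.disjoint_left.1 hUW (hKU (hK hx' hy' ha hb hab)) (hsub (mk_mem_prod hx1' hy2'))

lemma isClosed_DB (D : ℝ) : IsClosed {L : Compacts (E n) | DB (L : Set (E n)) D} := by
  rw [← isOpen_compl_iff, isOpen_iff_mem_nhds]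
  intro L hL
  simp only [mem_compl_iff, mem_ofPred_eq, DB] at hL
  push Not at hL
  obtain ⟨a, b, ha, hb, hD⟩ := hL
  have hc : Continuous fun p : (Fin n → E n) × (Fin n → E n) =>
      |detv fun i => (1 / 2 : ℝ) • (p.1 i - p.2 i)| :=
    (continuous_detv.comp (by fun_prop)).abs
  obtain ⟨U1, U2, hU1, hU2, ha1, hb2, hsub⟩ :=
    isOpen_prod_iff.1 (isOpen_lt continuous_const hc) a b hD
  obtain ⟨u, hu, hu'⟩ := isOpen_pi_iff'.1 hU1 a ha1
  obtain ⟨w, hw, hw'⟩ := isOpen_pi_iff'.1 hU2 b hb2
  have e1 : ∀ᶠ K : Compacts (E n) in 𝓝 L, ∀ i, ((K : Set (E n)) ∩ u i).Nonempty :=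
    eventually_all.2 fun i =>
      (Compacts.isOpen_inter_nonempty_of_isOpen (hu i).1).mem_nhds ⟨a i, ha i, (hu i).2⟩
  have e2 : ∀ᶠ K : Compacts (E n) in 𝓝 L, ∀ i, ((K : Set (E n)) ∩ w i).Nonempty :=
    eventually_all.2 fun i =>
      (Compacts.isOpen_inter_nonempty_of_isOpen (hw i).1).mem_nhds ⟨b i, hb i, (hw i).2⟩
  filter_upwards [e1, e2] with K h1 h2
  choose a' ha' using h1
  choose b' hb' using h2
  intro hK
  have h3 := hK a' b' (fun i => (ha' i).1) (fun i => (hb' i).1)
  have h4 := hsub (mk_mem_prod (hu' fun i _ => (ha' i).2) (hw' fun i _ => (hb' i).2))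
  exact absurd h3 (not_le.2 h4)

/-- the weighted measure maximised in the proof -/
noncomputable def wm (n : ℕ) (R : ℝ) : Measure (E n) :=
  volume.withDensity fun x => ENNReal.ofReal (R ^ 2 - ‖x‖ ^ 2)

instance (R : ℝ) : IsLocallyFiniteMeasure (wm n R) :=
  IsLocallyFiniteMeasure.withDensity_ofReal (by fun_prop)

lemma wm_iso (R : ℝ) (T : E n ≃ₗᵢ[ℝ] E n) {L : Set (E n)} (hL : IsCompact L) :
    wm n R (T '' L) = wm n R L := by
  rw [wm, withDensity_apply _ (hL.image T.continuous).measurableSet,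
    withDensity_apply _ hL.measurableSet,
    ← T.measurePreserving.setLIntegral_comp_emb T.toHomeomorph.measurableEmbedding]
  simp

lemma volume_iso (T : E n ≃ₗᵢ[ℝ] E n) (L : Set (E n)) : volume (T '' L) = volume L := by
  have := T.symm.measurePreserving.measure_preimage_emb T.symm.toHomeomorph.measurableEmbedding L
  rw [← this]
  congr 1
  exact T.toEquiv.image_eq_preimage_symm L

lemma wm_slice (R : ℝ) {L : Set (E (n + 1))} (hL : MeasurableSet L) :
    wm (n + 1) R L = ∫⁻ y : E n, ∫⁻ t in vs L y, ENNReal.ofReal (R ^ 2 - ‖y‖ ^ 2 - t ^ 2) := by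
  rw [wm, withDensity_apply _ hL, ← lintegral_indicator hL,
    lintegral_slice' (Measurable.indicator (by fun_prop) hL)]
  refine lintegral_congr fun y => ?_
  rw [← lintegral_indicator (measurableSet_vs hL y)]
  refine lintegral_congr fun t => ?_
  by_cases h : cons t y ∈ L
  · rw [indicator_of_mem h, indicator_of_mem (show t ∈ vs L y from h), norm_sq_cons]
    congr 1; ring
  · rw [indicator_of_notMem h, indicator_of_notMem (show t ∉ vs L y from h)]

lemma measurable_wm_slice (R : ℝ) {L : Set (E (n + 1))} (hL : MeasurableSet L) :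
    Measurable fun y : E n => ∫⁻ t in vs L y, ENNReal.ofReal (R ^ 2 - ‖y‖ ^ 2 - t ^ 2) := by
  have h1 : Measurable fun p : ℝ × E n => ((fun p : ℝ × E n => cons p.1 p.2) ⁻¹' L).indicator
      (fun p => ENNReal.ofReal (R ^ 2 - ‖p.2‖ ^ 2 - p.1 ^ 2)) p :=
    Measurable.indicator (by fun_prop) (continuous_cons.measurable hL)
  convert h1.lintegral_prod_left' (μ := volume) using 1
  ext y
  rw [← lintegral_indicator (measurableSet_vs hL y)]
  rfl

lemma lintegral_quad (c α β : ℝ) (hαβ : α ≤ β) (h : ∀ t ∈ Icc α β, 0 ≤ c - t ^ 2) :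
    ∫⁻ t in Icc α β, ENNReal.ofReal (c - t ^ 2) =
      ENNReal.ofReal (c * (β - α) - (β ^ 3 - α ^ 3) / 3) ∧
    0 ≤ c * (β - α) - (β ^ 3 - α ^ 3) / 3 := by
  have h1 : ∫ t in Icc α β, (c - t ^ 2) = c * (β - α) - (β ^ 3 - α ^ 3) / 3 := by
    rw [integral_Icc_eq_integral_Ioc, ← intervalIntegral.integral_of_le hαβ,
      intervalIntegral.integral_sub (by simp) (by simp)]
    simp
    ring
  constructor
  · rw [← h1, ofReal_integral_eq_lintegral_ofReal]
    · exact Continuous.integrableOn_Icc (by fun_prop)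
    · exact (ae_restrict_iff' measurableSet_Icc).2 (Eventually.of_forall h)
  · rw [← h1]
    exact setIntegral_nonneg measurableSet_Icc h

lemma steiner_subset_ball {L : Set (E (n + 1))} {R : ℝ} (h : L ⊆ closedBall 0 R) :
    steiner L ⊆ closedBall 0 R := by
  intro z hz
  obtain ⟨a, b, ha, hb, hz⟩ := hz
  have h1 := mem_closedBall_zero_iff.1 (h ha)
  have h2 := mem_closedBall_zero_iff.1 (h hb)
  have hR : 0 ≤ R := (norm_nonneg _).trans h1
  rw [mem_closedBall_zero_iff]
  rw [← sq_le_sq₀ (norm_nonneg _) hR] at h1 h2 ⊢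
  rw [← cons_tail z]
  rw [norm_sq_cons] at h1 h2 ⊢
  rw [hz]
  nlinarith [sq_nonneg (a + b)]

lemma nonneg_on_vs {L : Set (E (n + 1))} {R : ℝ} (h : L ⊆ closedBall 0 R) (y : E n) :
    ∀ t ∈ vs L y, 0 ≤ R ^ 2 - ‖y‖ ^ 2 - t ^ 2 := by
  intro t ht
  have h1 := mem_closedBall_zero_iff.1 (h ht)
  have hR : 0 ≤ R := (norm_nonneg _).trans h1
  rw [← sq_le_sq₀ (norm_nonneg _) hR, norm_sq_cons] at h1
  linarith

/-- a set whose weighted measure is not increased by Steiner symmetrisation is symmetric -/
lemma refl_of_max {L : Set (E (n + 1))} {R : ℝ} (hL : IsCompact L) (hc : Convex ℝ L)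
    (hR : L ⊆ closedBall 0 R) (hv : volume L ≠ 0)
    (hmax : wm (n + 1) R (steiner L) ≤ wm (n + 1) R L) :
    ∀ t y, cons t y ∈ L → cons (-t) y ∈ L := by
  have hS := isCompact_steiner hL
  have hfin : wm (n + 1) R L ≠ ⊤ := hL.measure_lt_top.ne
  rw [wm_slice R hL.measurableSet] at hmax hfin
  rw [wm_slice R hS.measurableSet] at hmax
  have hae := ae_eq_of_ae_le_of_lintegral_le (Eventually.of_forall fun y => ?_) hfin
    (measurable_wm_slice R hS.measurableSet).aemeasurable hmax
  swap
  · rcases vs_cases hL hc y with h | ⟨α, β, hαβ, h⟩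
    · simp [h]
    · have h1 := nonneg_on_vs hR y
      have h2 := nonneg_on_vs (steiner_subset_ball hR) y
      rw [vs_steiner_Icc h hαβ] at h2 ⊢
      rw [h] at h1 ⊢
      rw [(lintegral_quad _ _ _ hαβ h1).1, (lintegral_quad _ _ _ (by linarith) h2).1]
      refine ENNReal.ofReal_le_ofReal ?_
      nlinarith [mul_nonneg (sub_nonneg.2 hαβ) (sq_nonneg (α + β))]
  let L' : Set (E (n + 1)) := {z | cons (-z 0) (tail z) ∈ L}
  have hL' : IsClosed L' := hL.isClosed.preimage (by fun_prop)
  have hnull : volume (L \ L') = 0 := by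
    rw [volume_eq_vs (hL.measurableSet.diff hL'.measurableSet), ← lintegral_zero]
    refine lintegral_congr_ae ?_
    filter_upwards [hae] with y hy
    have hsub : ∀ t, t ∈ vs (L \ L') y ↔ t ∈ vs L y ∧ -t ∉ vs L y := fun t => Iff.rfl
    rcases vs_cases hL hc y with h | ⟨α, β, hαβ, h⟩
    · have : vs (L \ L') y = ∅ := by
        ext t; simp [hsub, h]
      simp [this]
    · have h1 := nonneg_on_vs hR y
      have h2 := nonneg_on_vs (steiner_subset_ball hR) y
      rw [vs_steiner_Icc h hαβ] at h2 hy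
      rw [h] at h1 hy
      have a1 := lintegral_quad _ _ _ hαβ h1
      have a2 := lintegral_quad _ _ _ (by linarith) h2
      rw [a1.1, a2.1, ENNReal.ofReal_eq_ofReal_iff a1.2 a2.2] at hy
      have h3 : (β - α) * (α + β) ^ 2 = 0 := by nlinarith
      rcases mul_eq_zero.1 h3 with h4 | h4
      · refine measure_mono_null (t := {α}) (fun t ht => ?_) (measure_singleton α)
        have := ((hsub t).1 ht).1
        rw [h] at this
        exact le_antisymm (by linarith [this.2]) this.1
      · have h5 : α + β = 0 := by simpa using h4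
        have : vs (L \ L') y = ∅ := by
          rw [eq_empty_iff_forall_notMem]
          intro t ht
          rw [hsub, h] at ht
          exact ht.2 ⟨by linarith [ht.1.2], by linarith [ht.1.1]⟩
        simp [this]
  have hint : (interior L).Nonempty := by
    rw [nonempty_iff_ne_empty]
    intro h0
    apply hv
    refine measure_mono_null ?_ (hc.addHaar_frontier volume)
    rw [frontier, h0, sdiff_empty]
    exact subset_closure
  have h1 : interior L \ L' = ∅ :=
    (isOpen_interior.sdiff hL').eq_empty_of_measure_zero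
      (measure_mono_null (sdiff_subset_sdiff_left interior_subset) hnull)
  have h2 : L ⊆ L' := by
    rw [sdiff_eq_empty] at h1
    have := closure_minimal h1 hL'
    rw [hc.closure_interior_eq_closure_of_nonempty_interior hint] at this
    exact subset_closure.trans this
  exact fun t y h => h2 h

lemma exists_iso (v : E (n + 1)) : ∃ T : E (n + 1) ≃ₗᵢ[ℝ] E (n + 1), T v = cons ‖v‖ 0 := by
  refine ⟨_, Submodule.reflection_sub (v := v) (w := cons ‖v‖ 0) ?_⟩
  rw [← sq_eq_sq₀ (norm_nonneg _) (norm_nonneg _), norm_sq_cons]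
  simp

/-- Macbeath type inequality -/
theorem macbeath {K : Set (E n)} (hK : IsCompact K) (hc : Convex ℝ K) {D : ℝ} (hD : DB K D) :
    volume K ≤ kap n * ENNReal.ofReal D := by
  cases n with
  | zero =>
    have h1 : volume K ≤ kap 0 := measure_mono fun x _ => by rw [Subsingleton.elim x 0]; simp
    have h2 := hD Fin.elim0 Fin.elim0 (fun i => i.elim0) (fun i => i.elim0)
    simp only [detv, Matrix.det_fin_zero, abs_one] at h2
    exact h1.trans (le_mul_of_one_le_right' (ENNReal.one_le_ofReal.2 h2))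
  | succ n =>
    by_cases hv : volume K = 0
    · simp [hv]
    obtain ⟨R, hR⟩ := hK.isBounded.subset_closedBall 0
    let F : Set (Compacts (E (n + 1))) := {L | (L : Set (E (n + 1))) ⊆ closedBall 0 R} ∩
      ({L | volume K ≤ volume (L : Set (E (n + 1)))} ∩
        ({L | Convex ℝ (L : Set (E (n + 1)))} ∩ {L | DB (L : Set (E (n + 1))) D}))
    have hF : IsCompact F :=
      (Compacts.isCompact_subsets_of_isCompact (isCompact_closedBall 0 R)).inter_right
        (((isClosed_le_measure volume).isClosed_preimage _).inter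
          (isClosed_convex.inter (isClosed_DB D)))
    have hFne : F.Nonempty := ⟨⟨K, hK⟩, hR, le_refl (volume K), hc, hD⟩
    obtain ⟨L, ⟨hLR, hLv, hLc, hLD⟩, hmax⟩ := UpperSemicontinuousOn.exists_isMaxOn hFne hF
      ((isClosed_le_measure (wm (n + 1) R)).upperSemicontinuousOn F)
    simp only [mem_ofPred_eq] at hLR hLv hLc hLD
    have hL := L.isCompact
    have hL0 : volume (L : Set (E (n + 1))) ≠ 0 := fun h => hv (le_zero_iff.1 (h ▸ hLv))
    have key : ∀ x ∈ (L : Set (E (n + 1))), ∀ z, ‖z‖ = ‖x‖ → z ∈ (L : Set (E (n + 1))) := by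
      intro x hx z hz
      by_cases hxz : x = z
      · rwa [← hxz]
      obtain ⟨T, hT⟩ := exists_iso (x - z)
      have hT1 : IsCompact (T '' L) := hL.image T.continuous
      have hT2 : Convex ℝ (T '' L) := hLc.linear_image (T.toLinearEquiv : E (n + 1) →ₗ[ℝ] E (n + 1))
      have hT3 : T '' L ⊆ closedBall 0 R := by
        rintro _ ⟨w, hw, rfl⟩
        simpa using hLR hw
      have hT4 := refl_of_max hT1 hT2 hT3 (by rwa [volume_iso]) (by
        rw [wm_iso R T hL]
        exact hmax (a := ⟨_, isCompact_steiner hT1⟩) ⟨steiner_subset_ball hT3,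
          by simpa [volume_steiner hT1 hT2, volume_iso] using hLv, convex_steiner hT2,
          (hLD.iso T).steiner⟩) (T x 0) (tail (T x)) (by simpa using hx)
      have e1 : T z = cons (T x 0 - ‖x - z‖) (tail (T x)) := by
        have : T z = T x - cons ‖x - z‖ 0 := by rw [← hT, map_sub]; abel
        rw [this]
        conv_lhs => rw [← cons_tail (T x)]
        rw [cons_sub, sub_zero]
      have e2 : ‖T z‖ ^ 2 = ‖T x‖ ^ 2 := by simp [hz]
      rw [e1, ← cons_tail (T x), norm_sq_cons, norm_sq_cons] at e2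
      simp only [cons_zero, tail_cons] at e2
      have hδ : ‖x - z‖ ≠ 0 := by rwa [norm_ne_zero_iff, sub_ne_zero]
      have e3 : T x 0 - ‖x - z‖ = -T x 0 := by
        have : ‖x - z‖ * (‖x - z‖ - 2 * T x 0) = 0 := by nlinarith
        rcases mul_eq_zero.1 this with h | h
        · exact absurd h hδ
        · linarith
      rw [← e3, ← e1] at hT4
      simpa using hT4
    have hne : (L : Set (E (n + 1))).Nonempty := nonempty_of_measure_ne_zero hL0
    obtain ⟨x, hx, hxm⟩ := hL.exists_isMaxOn hne continuous_norm.continuousOn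
    have h1 : (L : Set (E (n + 1))) ⊆ closedBall 0 ‖x‖ := fun w hw =>
      mem_closedBall_zero_iff.2 (hxm hw)
    have h2 := hLD (fun i => EuclideanSpace.single i ‖x‖) (fun i => -EuclideanSpace.single i ‖x‖)
      (fun i => key x hx _ (by simp)) (fun i => key x hx _ (by simp))
    have h3 : (detv fun i : Fin (n + 1) => (1 / 2 : ℝ) • ((EuclideanSpace.single i ‖x‖ : E (n + 1)) -
        -EuclideanSpace.single i ‖x‖)) = ‖x‖ ^ (n + 1) := by
      have : (Matrix.of fun i j : Fin (n + 1) => ((1 / 2 : ℝ) •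
          ((EuclideanSpace.single i ‖x‖ : E (n + 1)) - -EuclideanSpace.single i ‖x‖)) j) =
          Matrix.diagonal fun _ => ‖x‖ := by
        ext i j
        by_cases hij : i = j
        · subst hij; simp; ring
        · simp [hij, Ne.symm hij]
      rw [detv, this]
      simp
    rw [h3, abs_of_nonneg (by positivity)] at h2
    refine hLv.trans ((measure_mono h1).trans ?_)
    rw [volume_closedBall_eq _ (norm_nonneg _), ← ENNReal.ofReal_pow (norm_nonneg _)]
    exact mul_le_mul_right (ENNReal.ofReal_le_ofReal h2) _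

end Pool.Agent.Shared.BM
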