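import Mathlib

/-!
One-dimensional Brunn-Minkowski, the level set lemma and the one-dimensional
Prekopa-Leindler inequality (midpoint form).
-/

set_option autoImplicit false

open MeasureTheory Set ENNReal

namespace Pool.Agent.Shared.BM

lemma vol_le_iSup_Iic {X : Set ℝ} (hX : MeasurableSet X) :
    volume X ≤ ⨆ x : X, volume (X ∩ Iic (x : ℝ)) := by
  refine le_of_forall_lt fun r hr => ?_
  obtain ⟨K, hKX, hK, hrK⟩ := hX.exists_lt_isCompact hr
  have hne : K.Nonempty := by
    rw [nonempty_iff_ne_empty]; rintro rfl; simp at hrK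
  obtain ⟨x, hx, hx'⟩ := hK.exists_isGreatest hne
  exact hrK.trans_le (le_iSup_of_le ⟨x, hKX hx⟩ (measure_mono fun y hy => ⟨hKX hy, hx' hy⟩))

lemma vol_le_iSup_Ici {X : Set ℝ} (hX : MeasurableSet X) :
    volume X ≤ ⨆ x : X, volume (X ∩ Ici (x : ℝ)) := by
  refine le_of_forall_lt fun r hr => ?_
  obtain ⟨K, hKX, hK, hrK⟩ := hX.exists_lt_isCompact hr
  have hne : K.Nonempty := by
    rw [nonempty_iff_ne_empty]; rintro rfl; simp at hrK
  obtain ⟨x, hx, hx'⟩ := hK.exists_isLeast hne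
  exact hrK.trans_le (le_iSup_of_le ⟨x, hKX hx⟩ (measure_mono fun y hy => ⟨hKX hy, hx' hy⟩))

/-- one-dimensional Brunn-Minkowski inequality -/
theorem bm1 {X Y Z : Set ℝ} (hX : MeasurableSet X) (hY : MeasurableSet Y) (hXn : X.Nonempty)
    (hYn : Y.Nonempty) (h : ∀ x ∈ X, ∀ y ∈ Y, x + y ∈ Z) : volume X + volume Y ≤ volume Z := by
  have : Nonempty X := hXn.to_subtype
  have : Nonempty Y := hYn.to_subtype
  refine (add_le_add (vol_le_iSup_Iic hX) (vol_le_iSup_Ici hY)).trans
    (ENNReal.iSup_add_iSup_le fun x y => ?_)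
  have h1 : volume (X ∩ Iic (x : ℝ)) = volume ((fun t => t + -(y : ℝ)) ⁻¹' (X ∩ Iic (x : ℝ))) :=
    (measure_preimage_add_right _ _ _).symm
  have h2 : volume (Y ∩ Ici (y : ℝ)) = volume ((fun t => t + -(x : ℝ)) ⁻¹' (Y ∩ Ioi (y : ℝ))) := by
    rw [measure_preimage_add_right]
    exact measure_congr (ae_eq_set_inter (ae_eq_refl _) Ioi_ae_eq_Ici.symm)
  rw [h1, h2, ← measure_union]
  · refine measure_mono ?_
    rintro t (ht | ht)
    · have := h _ ht.1 _ y.2
      simpa using this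
    · have := h _ x.2 _ ht.1
      simpa using this
  · rw [Set.disjoint_left]
    intro t h1 h2
    have a1 : t + -(y : ℝ) ≤ x := h1.2
    have a2 : (y : ℝ) < t + -(x : ℝ) := h2.2
    linarith
  · exact (measurable_add_const _) (hY.inter measurableSet_Ioi)

lemma vol_level (a : ℝ≥0∞) : volume {r : ℝ | 0 < r ∧ ENNReal.ofReal r < a} = a := by
  by_cases ha : a = ⊤
  · subst ha
    have : {r : ℝ | 0 < r ∧ ENNReal.ofReal r < ⊤} = Ioi 0 := by ext r; simp
    rw [this, Real.volume_Ioi]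
  · have : {r : ℝ | 0 < r ∧ ENNReal.ofReal r < a} = Ioo 0 a.toReal := by
      ext r
      simp only [mem_ofPred_eq, mem_Ioo, and_congr_right_iff]
      intro hr
      exact ENNReal.ofReal_lt_iff_lt_toReal hr.le ha
    rw [this, Real.volume_Ioo, sub_zero, ENNReal.ofReal_toReal ha]

lemma measurableSet_under {f : ℝ → ℝ≥0∞} (hf : Measurable f) :
    MeasurableSet {p : ℝ × ℝ | 0 < p.2 ∧ ENNReal.ofReal p.2 < f p.1} :=
  (measurableSet_lt measurable_const measurable_snd).inter
    (measurableSet_lt (ENNReal.measurable_ofReal.comp measurable_snd) (hf.comp measurable_fst))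

/-- layer cake formula for extended real valued functions -/
lemma layer {f : ℝ → ℝ≥0∞} (hf : Measurable f) :
    ∫⁻ x, f x = ∫⁻ r : ℝ, volume {x | 0 < r ∧ ENNReal.ofReal r < f x} := by
  have h1 := Measure.prod_apply (μ := (volume : Measure ℝ)) (ν := (volume : Measure ℝ))
    (measurableSet_under hf)
  have h2 := Measure.prod_apply_symm (μ := (volume : Measure ℝ)) (ν := (volume : Measure ℝ))
    (measurableSet_under hf)
  rw [h1] at h2
  refine Eq.trans ?_ h2
  refine lintegral_congr fun x => ?_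
  exact (vol_level (f x)).symm

/-- the level set lemma -/
theorem level {a b z : ℝ → ℝ≥0∞} (ha : Measurable a) (hb : Measurable b) (hz : Measurable z)
    (hsup : ⨆ x, a x = ⨆ y, b y) (h : ∀ x y, min (a x) (b y) ≤ z (x + y)) :
    (∫⁻ x, a x) + ∫⁻ y, b y ≤ ∫⁻ w, z w := by
  rw [layer ha, layer hb, layer hz, ← lintegral_add_left]
  · refine lintegral_mono fun r => ?_
    by_cases hr : 0 < r
    · by_cases hne : ENNReal.ofReal r < ⨆ x, a x
      · have hne' := hne
        rw [hsup] at hne'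
        rw [lt_iSup_iff] at hne hne'
        simp only [hr, true_and]
        refine bm1 (measurableSet_lt measurable_const ha) (measurableSet_lt measurable_const hb)
          hne hne' fun x hx y hy => ?_
        exact (lt_min hx hy).trans_le (h x y)
      · have hne' := hne
        rw [hsup] at hne'
        rw [lt_iSup_iff] at hne hne'
        push Not at hne hne'
        have e1 : {x | 0 < r ∧ ENNReal.ofReal r < a x} = ∅ := by
          ext x; simp [hne x]
        have e2 : {x | 0 < r ∧ ENNReal.ofReal r < b x} = ∅ := by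
          ext x; simp [hne' x]
        simp [e1, e2]
    · simp [hr]
  · exact measurable_measure_prodMk_right (measurableSet_under ha)

lemma mul_le_sq_of_add_le {a b h : ℝ≥0∞} (H : a + b ≤ 2 * h) : a * b ≤ h ^ 2 := by
  by_cases hh : h = ⊤
  · simp [hh]
  have h2 : 2 * h ≠ ⊤ := ENNReal.mul_ne_top (by simp) hh
  have ha : a ≠ ⊤ := ne_top_of_le_ne_top h2 (le_self_add.trans H)
  have hb : b ≠ ⊤ := ne_top_of_le_ne_top h2 (le_add_self.trans H)
  lift a to NNReal using ha
  lift b to NNReal using hb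
  lift h to NNReal using hh
  norm_cast at H ⊢
  have H' : (a : ℝ) + b ≤ 2 * h := by exact_mod_cast H
  have : (a : ℝ) * b ≤ h ^ 2 := by
    nlinarith [sq_nonneg ((a : ℝ) - b), a.2, b.2, h.2]
  exact_mod_cast this

lemma min_le_of_mul_le_sq {a b h : ℝ≥0∞} (H : a * b ≤ h ^ 2) : min a b ≤ h := by
  by_contra hcon
  push Not at hcon
  rw [lt_min_iff] at hcon
  have := ENNReal.mul_lt_mul hcon.1 hcon.2
  rw [← sq] at this
  exact absurd H (not_le.2 this)

lemma lintegral_half (h : ℝ → ℝ≥0∞) (hh : Measurable h) :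
    ∫⁻ w, h (w / 2) = 2 * ∫⁻ w, h w := by
  have h1 : ∫⁻ w, h (w / 2) = ∫⁻ w, h w ∂(Measure.map (fun x : ℝ => (2⁻¹ : ℝ) * x) volume) := by
    rw [lintegral_map hh (measurable_const_mul _)]
    refine lintegral_congr fun w => ?_
    rw [div_eq_inv_mul]
  rw [h1, Real.map_volume_mul_left (by norm_num), lintegral_smul_measure]
  simp

lemma pl1_bdd {f g h : ℝ → ℝ≥0∞} (hf : Measurable f) (hg : Measurable g) (hh : Measurable h)
    (hF : ⨆ x, f x ≠ ⊤) (hG : ⨆ x, g x ≠ ⊤)
    (H : ∀ x y, f x * g y ≤ h ((x + y) / 2) ^ 2) :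
    (∫⁻ x, f x) * ∫⁻ y, g y ≤ (∫⁻ w, h w) ^ 2 := by
  by_cases hF0 : ⨆ x, f x = 0
  · have : f = fun _ => 0 := funext fun x => le_zero_iff.1 (hF0 ▸ le_iSup f x)
    simp [this]
  by_cases hG0 : ⨆ x, g x = 0
  · have : g = fun _ => 0 := funext fun x => le_zero_iff.1 (hG0 ▸ le_iSup g x)
    simp [this]
  obtain ⟨c, hc0, hct, hc⟩ : ∃ c : ℝ≥0∞, c ≠ 0 ∧ c ≠ ⊤ ∧ c * ⨆ x, f x = c⁻¹ * ⨆ x, g x := by
    generalize ⨆ x, f x = F at hF hF0
    generalize ⨆ x, g x = G at hG hG0
    lift F to NNReal using hF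
    lift G to NNReal using hG
    have hF1 : F ≠ 0 := by simpa using hF0
    have hG1 : G ≠ 0 := by simpa using hG0
    have hc : NNReal.sqrt (G / F) ≠ 0 := by simp [hF1, hG1]
    refine ⟨(NNReal.sqrt (G / F) : NNReal), by simpa using hc, by simp, ?_⟩
    rw [← ENNReal.coe_inv hc]
    norm_cast
    field_simp
    rw [NNReal.sq_sqrt]
    field_simp
  have key := level (a := fun x => c * f x) (b := fun y => c⁻¹ * g y) (z := fun w => h (w / 2))
    (hf.const_mul c) (hg.const_mul _) (hh.comp (measurable_id.div_const 2))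
    (by rw [← ENNReal.mul_iSup, ← ENNReal.mul_iSup, hc]) (fun x y => by
      refine min_le_of_mul_le_sq ?_
      rw [mul_mul_mul_comm, ENNReal.mul_inv_cancel hc0 hct, one_mul]
      exact H x y)
  rw [lintegral_half h hh, lintegral_const_mul _ hf, lintegral_const_mul _ hg] at key
  have := mul_le_sq_of_add_le key
  rwa [mul_mul_mul_comm, ENNReal.mul_inv_cancel hc0 hct, one_mul] at this

lemma lintegral_eq_iSup_min {α : Type*} [MeasurableSpace α] {μ : Measure α} {f : α → ℝ≥0∞}
    (hf : Measurable f) : ∫⁻ x, f x ∂μ = ⨆ n : ℕ, ∫⁻ x, min (f x) n ∂μ := by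
  rw [← lintegral_iSup (fun n => hf.min measurable_const)]
  · refine lintegral_congr fun x => ?_
    rw [← inf_iSup_eq, ENNReal.iSup_natCast, inf_top_eq]
  · intro m n hmn x
    exact min_le_min le_rfl (Nat.cast_le.2 hmn)

/-- one-dimensional Prekopa-Leindler inequality, midpoint form -/
theorem pl1 {f g h : ℝ → ℝ≥0∞} (hf : Measurable f) (hg : Measurable g) (hh : Measurable h)
    (H : ∀ x y, f x * g y ≤ h ((x + y) / 2) ^ 2) :
    (∫⁻ x, f x) * ∫⁻ y, g y ≤ (∫⁻ w, h w) ^ 2 := by
  rw [lintegral_eq_iSup_min hf, lintegral_eq_iSup_min hg, ENNReal.iSup_mul]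
  refine iSup_le fun m => ?_
  rw [ENNReal.mul_iSup]
  refine iSup_le fun n => ?_
  refine pl1_bdd (hf.min measurable_const) (hg.min measurable_const) hh ?_ ?_ fun x y => ?_
  · exact ne_top_of_le_ne_top (ENNReal.natCast_ne_top m) (iSup_le fun x => min_le_right _ _)
  · exact ne_top_of_le_ne_top (ENNReal.natCast_ne_top n) (iSup_le fun x => min_le_right _ _)
  · exact (mul_le_mul' (min_le_left _ _) (min_le_left _ _)).trans (H x y)

/-- logarithmic change of variables on the positive half line -/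
lemma lintegral_Ioi_eq_exp (φ : ℝ → ℝ≥0∞) :
    ∫⁻ t in Ioi (0 : ℝ), φ t = ∫⁻ a, ENNReal.ofReal (Real.exp a) * φ (Real.exp a) := by
  have := lintegral_image_eq_lintegral_abs_deriv_mul (s := univ) (f := Real.exp) (f' := Real.exp)
    MeasurableSet.univ (fun x _ => (Real.hasDerivAt_exp x).hasDerivWithinAt)
    Real.exp_injective.injOn φ
  rw [image_univ, Real.range_exp, Measure.restrict_univ] at this
  rw [this]
  refine lintegral_congr fun a => ?_
  rw [abs_of_pos (Real.exp_pos a)]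

/-- multiplicative form of the Prekopa-Leindler inequality on the positive half line -/
theorem pl1_mul {f g h : ℝ → ℝ≥0∞} (hf : Measurable f) (hg : Measurable g) (hh : Measurable h)
    (H : ∀ t s r, 0 < t → 0 < s → 0 < r → r ^ 2 = t * s → f t * g s ≤ h r ^ 2) :
    (∫⁻ x in Ioi (0 : ℝ), f x) * ∫⁻ y in Ioi (0 : ℝ), g y ≤ (∫⁻ w in Ioi (0 : ℝ), h w) ^ 2 := by
  rw [lintegral_Ioi_eq_exp, lintegral_Ioi_eq_exp, lintegral_Ioi_eq_exp]
  have hm : Measurable fun a => ENNReal.ofReal (Real.exp a) :=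
    ENNReal.measurable_ofReal.comp Real.measurable_exp
  refine pl1 (hm.mul (hf.comp Real.measurable_exp)) (hm.mul (hg.comp Real.measurable_exp))
    (hm.mul (hh.comp Real.measurable_exp)) fun x y => ?_
  have e : Real.exp ((x + y) / 2) ^ 2 = Real.exp x * Real.exp y := by
    rw [← Real.exp_add, sq, ← Real.exp_add, add_halves]
  rw [mul_mul_mul_comm, mul_pow, ← ENNReal.ofReal_mul (Real.exp_pos x).le, ← e,
    ENNReal.ofReal_pow (Real.exp_pos _).le]
  exact mul_le_mul_right (H _ _ _ (Real.exp_pos _) (Real.exp_pos _) (Real.exp_pos _) e) _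

end Pool.Agent.Shared.BM
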