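import Pool.Agent.Shared.BM.Slice

/-!
Steiner symmetrisation along the first coordinate and the Blaschke-Santalo inequality for
origin-symmetric compact convex sets.
-/

set_option autoImplicit false

open MeasureTheory Set ENNReal Metric Filter Topology
open scoped RealInnerProductSpace Pointwise

namespace Pool.Agent.Shared.BM

variable {n : ℕ}

/-- Steiner symmetral of a convex set along the first coordinate -/
def steiner (K : Set (E (n + 1))) : Set (E (n + 1)) :=
  {z | ∃ a b : ℝ, cons a (tail z) ∈ K ∧ cons b (tail z) ∈ K ∧ z 0 = (a - b) / 2}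

lemma cons_mem_steiner {K : Set (E (n + 1))} {t : ℝ} {y : E n} :
    cons t y ∈ steiner K ↔ ∃ a b : ℝ, cons a y ∈ K ∧ cons b y ∈ K ∧ t = (a - b) / 2 := Iff.rfl

lemma isCompact_steiner {K : Set (E (n + 1))} (hK : IsCompact K) : IsCompact (steiner K) := by
  have h1 : IsCompact ((K ×ˢ K) ∩ {p : E (n + 1) × E (n + 1) | tail p.1 = tail p.2}) :=
    (hK.prod hK).inter_right (isClosed_eq (by fun_prop) (by fun_prop))
  have h2 : Continuous fun p : E (n + 1) × E (n + 1) => cons ((p.1 0 - p.2 0) / 2) (tail p.1) := by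
    fun_prop
  convert h1.image h2 using 1
  ext z
  constructor
  · rintro ⟨a, b, ha, hb, hz⟩
    refine ⟨(cons a (tail z), cons b (tail z)), ⟨⟨ha, hb⟩, rfl⟩, ?_⟩
    simp [← hz]
  · rintro ⟨⟨x, x'⟩, ⟨⟨hx, hx'⟩, he⟩, rfl⟩
    have he' : tail x = tail x' := he
    refine cons_mem_steiner.2 ⟨x 0, x' 0, ?_, ?_, rfl⟩
    · simpa using hx
    · rw [he']; simpa using hx'

lemma convex_steiner {K : Set (E (n + 1))} (hK : Convex ℝ K) : Convex ℝ (steiner K) := by
  rintro x ⟨a, b, ha, hb, hx⟩ y ⟨c, d, hc, hd, hy⟩ α β hα hβ hαβ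
  refine ⟨α * a + β * c, α * b + β * d, ?_, ?_, ?_⟩
  · have := hK ha hc hα hβ hαβ
    rwa [smul_cons, smul_cons, cons_add] at this
  · have := hK hb hd hα hβ hαβ
    rwa [smul_cons, smul_cons, cons_add] at this
  · simp [hx, hy]; ring

lemma steiner_refl {K : Set (E (n + 1))} {t : ℝ} {y : E n} (h : cons t y ∈ steiner K) :
    cons (-t) y ∈ steiner K := by
  obtain ⟨a, b, ha, hb, rfl⟩ := cons_mem_steiner.1 h
  exact cons_mem_steiner.2 ⟨b, a, hb, ha, by ring⟩

lemma steiner_neg {K : Set (E (n + 1))} (hK : ∀ x ∈ K, -x ∈ K) :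
    ∀ x ∈ steiner K, -x ∈ steiner K := by
  intro x hx
  rw [← cons_tail x] at hx ⊢
  obtain ⟨a, b, ha, hb, h⟩ := cons_mem_steiner.1 hx
  rw [neg_cons]
  refine cons_mem_steiner.2 ⟨-a, -b, ?_, ?_, by rw [h]; ring⟩
  · rw [← neg_cons]; exact hK _ ha
  · rw [← neg_cons]; exact hK _ hb

lemma isCompact_vs {K : Set (E (n + 1))} (hK : IsCompact K) (y : E n) : IsCompact (vs K y) := by
  refine (hK.image (f := fun x : E (n + 1) => x 0) (by fun_prop)).of_isClosed_subset
    (hK.isClosed.preimage (Continuous.cons' continuous_id continuous_const)) fun t ht => ?_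
  exact ⟨_, ht, rfl⟩

lemma isCompact_hs {K : Set (E (n + 1))} (hK : IsCompact K) (t : ℝ) : IsCompact (hs K t) := by
  refine (hK.image continuous_tail).of_isClosed_subset
    (hK.isClosed.preimage (Continuous.cons' continuous_const continuous_id)) fun y hy => ?_
  exact ⟨_, hy, rfl⟩

lemma convex_vs {K : Set (E (n + 1))} (hK : Convex ℝ K) (y : E n) : Convex ℝ (vs K y) := by
  intro a ha b hb α β hα hβ hαβ
  have := hK ha hb hα hβ hαβ
  rwa [smul_cons, smul_cons, cons_add, ← add_smul, hαβ, one_smul] at this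

lemma convex_hs {K : Set (E (n + 1))} (hK : Convex ℝ K) (t : ℝ) : Convex ℝ (hs K t) := by
  intro a ha b hb α β hα hβ hαβ
  have := hK ha hb hα hβ hαβ
  rwa [smul_cons, smul_cons, cons_add, ← add_mul, hαβ, one_mul] at this

lemma vs_cases {K : Set (E (n + 1))} (hK : IsCompact K) (hc : Convex ℝ K) (y : E n) :
    vs K y = ∅ ∨ ∃ α β : ℝ, α ≤ β ∧ vs K y = Icc α β := by
  rcases (vs K y).eq_empty_or_nonempty with h | h
  · exact Or.inl h
  · have := eq_Icc_of_connected_compact ((convex_vs hc y).isConnected h) (isCompact_vs hK y)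
    refine Or.inr ⟨_, _, ?_, this⟩
    rw [this] at h
    exact nonempty_Icc.1 h

lemma vs_steiner_empty {K : Set (E (n + 1))} {y : E n} (h : vs K y = ∅) :
    vs (steiner K) y = ∅ := by
  rw [eq_empty_iff_forall_notMem] at h ⊢
  rintro t ⟨a, _, ha, _⟩
  exact h a ha

lemma vs_steiner_Icc {K : Set (E (n + 1))} {y : E n} {α β : ℝ}
    (h : vs K y = Icc α β) (_hαβ : α ≤ β) :
    vs (steiner K) y = Icc (-((β - α) / 2)) ((β - α) / 2) := by
  have h' : ∀ t, cons t y ∈ K ↔ α ≤ t ∧ t ≤ β := fun t => by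
    rw [← mem_Icc, ← h]; rfl
  ext t
  change cons t y ∈ steiner K ↔ _
  rw [cons_mem_steiner, mem_Icc]
  simp only [h']
  constructor
  · rintro ⟨a, b, ha, hb, rfl⟩
    constructor <;> linarith [ha.1, ha.2, hb.1, hb.2]
  · rintro ⟨h1, h2⟩
    exact ⟨(α + β) / 2 + t, (α + β) / 2 - t, ⟨by linarith, by linarith⟩,
      ⟨by linarith, by linarith⟩, by ring⟩

lemma volume_steiner {K : Set (E (n + 1))} (hK : IsCompact K) (hc : Convex ℝ K) :
    volume (steiner K) = volume K := by
  rw [volume_eq_vs hK.measurableSet, volume_eq_vs (isCompact_steiner hK).measurableSet]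
  refine lintegral_congr fun y => ?_
  rcases vs_cases hK hc y with h | ⟨α, β, hαβ, h⟩
  · rw [vs_steiner_empty h, h]
  · rw [vs_steiner_Icc h hαβ, h, Real.volume_Icc, Real.volume_Icc]
    congr 1; ring

lemma hs_steiner_zero (K : Set (E (n + 1))) : hs (steiner K) 0 = tail '' K := by
  ext y
  constructor
  · rintro ⟨a, _, ha, _⟩
    exact ⟨_, ha, rfl⟩
  · rintro ⟨x, hx, rfl⟩
    exact cons_mem_steiner.2 ⟨x 0, x 0, by simpa using hx, by simpa using hx, by simp⟩

lemma hs_steiner_neg {K : Set (E (n + 1))} (hK : ∀ x ∈ K, -x ∈ K) (t : ℝ) :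
    ∀ y ∈ hs (steiner K) t, -y ∈ hs (steiner K) t := by
  intro y hy
  have := steiner_neg hK _ (steiner_refl hy)
  rwa [neg_cons, neg_neg] at this

/-- the polar set scaled to level `c` -/
def polarAt (U : Set (E n)) (c : ℝ) : Set (E n) := {y | ∀ x ∈ U, ⟪x, y⟫ ≤ c}

lemma isClosed_polarAt (U : Set (E n)) (c : ℝ) : IsClosed (polarAt U c) := by
  have : polarAt U c = ⋂ x ∈ U, {y | ⟪x, y⟫ ≤ c} := by ext y; simp [polarAt]
  rw [this]
  exact isClosed_biInter fun x _ => isClosed_le (by fun_prop) continuous_const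

lemma convex_polarAt (U : Set (E n)) (c : ℝ) : Convex ℝ (polarAt U c) := by
  intro y hy z hz α β hα hβ hαβ x hx
  rw [inner_add_right, real_inner_smul_right, real_inner_smul_right]
  have h1 := mul_le_mul_of_nonneg_left (hy x hx) hα
  have h2 := mul_le_mul_of_nonneg_left (hz x hx) hβ
  have : α * c + β * c = c := by rw [← add_mul, hαβ, one_mul]
  linarith

lemma polarAt_neg {U : Set (E n)} (hU : ∀ x ∈ U, -x ∈ U) (c : ℝ) :
    ∀ y ∈ polarAt U c, -y ∈ polarAt U c := by
  intro y hy x hx
  rw [inner_neg_right, ← inner_neg_left]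
  exact hy _ (hU x hx)

lemma polarAt_eq_smul (U : Set (E n)) {c : ℝ} (hc : 0 < c) : polarAt U c = c • polarAt U 1 := by
  ext y
  rw [mem_smul_set_iff_inv_smul_mem₀ hc.ne']
  simp only [polarAt, mem_ofPred_eq, real_inner_smul_right]
  refine forall₂_congr fun x _ => ?_
  rw [inv_mul_le_iff₀ hc, mul_one]

/-- volume of the unit ball -/
noncomputable def kap (n : ℕ) : ℝ≥0∞ := volume (closedBall (0 : E n) 1)

lemma kap_ne_top (n : ℕ) : kap n ≠ ⊤ := measure_closedBall_lt_top.ne

lemma kap_ne_zero (n : ℕ) : kap n ≠ 0 := (measure_closedBall_pos _ _ one_pos).ne'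

lemma volume_closedBall_eq (n : ℕ) {r : ℝ} (hr : 0 ≤ r) :
    volume (closedBall (0 : E n) r) = kap n * ENNReal.ofReal r ^ n := by
  rw [Measure.addHaar_closedBall' _ _ hr, finrank_euclideanSpace_fin, ENNReal.ofReal_pow hr,
    mul_comm]
  rfl

/-- the statement of the Blaschke-Santalo inequality in dimension `n` -/
def BS (n : ℕ) : Prop := ∀ U : Set (E n), IsCompact U → Convex ℝ U → (∀ x ∈ U, -x ∈ U) →
  volume U * volume (polarAt U 1) ≤ kap n ^ 2

lemma BS.scaled (h : BS n) {U : Set (E n)} (hU : IsCompact U) (hc : Convex ℝ U)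
    (hs : ∀ x ∈ U, -x ∈ U) (c : ℝ) :
    volume U * volume (polarAt U c) ≤ if 0 ≤ c then kap n ^ 2 * ENNReal.ofReal c ^ n else 0 := by
  have hpos : ∀ c : ℝ, 0 < c →
      volume U * volume (polarAt U c) ≤ kap n ^ 2 * ENNReal.ofReal c ^ n := by
    intro c hc0
    rw [polarAt_eq_smul U hc0, Measure.addHaar_smul_of_nonneg _ hc0.le, finrank_euclideanSpace_fin,
      ENNReal.ofReal_pow hc0.le, mul_left_comm, mul_comm]
    exact mul_le_mul_left (h U hU hc hs) _
  split_ifs with h0
  · have ht : Tendsto (fun e : ℝ => kap n ^ 2 * ENNReal.ofReal e ^ n) (𝓝[>] c)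
        (𝓝 (kap n ^ 2 * ENNReal.ofReal c ^ n)) := by
      refine ENNReal.Tendsto.const_mul ?_ (Or.inr (ENNReal.pow_ne_top (kap_ne_top n)))
      exact (((ENNReal.continuous_pow n).comp ENNReal.continuous_ofReal).tendsto c).mono_left
        nhdsWithin_le_nhds
    refine ge_of_tendsto ht ?_
    filter_upwards [self_mem_nhdsWithin] with e he
    refine le_trans (mul_le_mul_right (measure_mono ?_) _) (hpos e (h0.trans_lt he))
    exact fun y hy x hx => (hy x hx).trans (le_of_lt he)
  · rcases U.eq_empty_or_nonempty with rfl | ⟨x, hx⟩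
    · simp
    · have : polarAt U c = ∅ := by
        rw [eq_empty_iff_forall_notMem]
        intro y hy
        have h1 := hy x hx
        have h2 := hy _ (hs x hx)
        rw [inner_neg_left] at h2
        linarith
      simp [this]

lemma slice_bound (h : BS n) {K : Set (E (n + 1))} (hK : IsCompact K) (hc : Convex ℝ K)
    (hsym : ∀ x ∈ K, -x ∈ K) (t s : ℝ) :
    volume (hs (steiner K) t) * volume (hs (polarAt K 1) s) ≤
      if 0 ≤ 1 - t * s then kap n ^ 2 * ENNReal.ofReal (1 - t * s) ^ n else 0 := by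
  refine le_trans (mul_le_mul_right ?_ _) (h.scaled (isCompact_hs (isCompact_steiner hK) t)
    (convex_hs (convex_steiner hc) t) (hs_steiner_neg hsym t) (1 - t * s))
  refine vol_le_of_half_diff (measurableSet_hs (isClosed_polarAt K 1).measurableSet s)
    (isClosed_polarAt _ _).measurableSet fun y hy z hz x hx => ?_
  obtain ⟨a, b, ha, hb, rfl⟩ := cons_mem_steiner.1 hx
  have h1 := hy _ ha
  have h2 := hz _ (hsym _ hb)
  rw [neg_cons, inner_cons, inner_neg_left] at h2
  rw [inner_cons] at h1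
  rw [real_inner_smul_right, inner_sub_right]
  linarith

lemma hs_ball (r : ℝ) : volume (hs (closedBall (0 : E (n + 1)) 1) r) =
    if 0 ≤ 1 - r ^ 2 then kap n * ENNReal.ofReal √(1 - r ^ 2) ^ n else 0 := by
  have key : ∀ y : E n, y ∈ hs (closedBall (0 : E (n + 1)) 1) r ↔ ‖y‖ ^ 2 ≤ 1 - r ^ 2 := by
    intro y
    change cons r y ∈ closedBall (0 : E (n + 1)) 1 ↔ _
    rw [mem_closedBall_zero_iff, ← sq_le_one_iff₀ (norm_nonneg _), norm_sq_cons]
    constructor <;> intro h <;> linarith
  split_ifs with h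
  · rw [← volume_closedBall_eq n (Real.sqrt_nonneg _)]
    congr 1
    ext y
    rw [key, mem_closedBall_zero_iff, Real.le_sqrt (norm_nonneg _) h]
  · have : hs (closedBall (0 : E (n + 1)) 1) r = ∅ := by
      rw [eq_empty_iff_forall_notMem]
      intro y hy
      rw [key] at hy
      exact h ((sq_nonneg _).trans hy)
    simp [this]

/-- Blaschke-Santalo inequality for origin-symmetric compact convex sets -/
theorem santalo (n : ℕ) : BS n := by
  induction n with
  | zero =>
    intro U _ _ _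
    have h1 : ∀ A : Set (E 0), volume A ≤ kap 0 := fun A =>
      measure_mono fun x _ => by rw [Subsingleton.elim x 0]; simp
    rw [sq]
    exact mul_le_mul' (h1 _) (h1 _)
  | succ n ih =>
    intro K hK hc hsym
    have hS := isCompact_steiner hK
    have hP := (isClosed_polarAt K 1).measurableSet
    have hB : MeasurableSet (closedBall (0 : E (n + 1)) 1) := measurableSet_closedBall
    rw [← volume_steiner hK hc, volume_eq_two_mul hS.measurableSet (steiner_neg hsym),
      volume_eq_two_mul hP (polarAt_neg hsym 1), kap,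
      volume_eq_two_mul hB (fun x hx => by simpa using hx), mul_mul_mul_comm, mul_pow, ← sq]
    refine mul_le_mul_right (pl1_mul (measurable_hs hS.measurableSet) (measurable_hs hP)
      (measurable_hs hB) fun t s r _ _ _ hr => ?_) _
    refine (slice_bound ih hK hc hsym t s).trans ?_
    rw [hs_ball, hr]
    split_ifs with h
    · rw [mul_pow, ← pow_mul, mul_comm n 2, pow_mul, ← ENNReal.ofReal_pow (Real.sqrt_nonneg _),
        Real.sq_sqrt h]
    · simp

end Pool.Agent.Shared.BM
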